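import Pool.Agent.Lib.MP_edb5be_nt.EX.Iface2

/-!
Project EX (MP_edb5be_nt), module PHIW: the density `Phi` is a sum over words.
-/

set_option autoImplicit false

namespace Pool.Agent.Lib.MP_edb5be_nt.EX.H74

open Finset Pool.Agent.Lib.MP_0a5adf_nt.TP

/-- The finite set of the partial sums. -/
def st : List ℕ → Finset ℕ
  | [] => ∅
  | a :: u => insert a ((st u).map (addLeftEmbedding a))

theorem st_pos : ∀ u : List ℕ, (∀ a ∈ u, 1 ≤ a) → ∀ x ∈ st u, 1 ≤ x
  | [], _, x, hx => by simp [st] at hx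
  | a :: u, h, x, hx => by
    have ha : 1 ≤ a := h a (by simp)
    simp only [st, mem_insert, mem_map, addLeftEmbedding_apply] at hx
    rcases hx with rfl | ⟨y, _, rfl⟩ <;> omega

theorem notMem_map (a : ℕ) (S : Finset ℕ) (hS : ∀ x ∈ S, 1 ≤ x) :
    a ∉ S.map (addLeftEmbedding a) := by
  intro h
  simp only [mem_map, addLeftEmbedding_apply] at h
  obtain ⟨y, hy, hy'⟩ := h
  have := hS y hy
  omega

theorem st_card : ∀ u : List ℕ, (∀ a ∈ u, 1 ≤ a) → (st u).card = u.length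
  | [], _ => rfl
  | a :: u, h => by
    have hu : ∀ b ∈ u, 1 ≤ b := fun b hb => h b (by simp [hb])
    rw [st, card_insert_of_notMem (notMem_map a _ (st_pos u hu)), card_map, st_card u hu,
      List.length_cons]

theorem st_le : ∀ u : List ℕ, ∀ x ∈ st u, x ≤ u.sum
  | [], x, hx => by simp [st] at hx
  | a :: u, x, hx => by
    simp only [st, mem_insert, mem_map, addLeftEmbedding_apply] at hx
    rw [List.sum_cons]
    rcases hx with rfl | ⟨y, hy, rfl⟩
    · omega
    · have := st_le u y hy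
      omega

theorem sum_mem_st : ∀ u : List ℕ, u ≠ [] → u.sum ∈ st u
  | [], h => (h rfl).elim
  | a :: u, _ => by
    rcases u with _ | ⟨b, v⟩
    · simp [st]
    · rw [st, List.sum_cons]
      refine mem_insert_of_mem (mem_map.2 ⟨_, sum_mem_st (b :: v) (by simp), ?_⟩)
      simp

theorem st_sup (u : List ℕ) : (st u).sup id = u.sum := by
  rcases eq_or_ne u [] with rfl | h
  · simp [st]
  · refine le_antisymm (Finset.sup_le fun x hx => st_le u x hx) ?_
    exact Finset.le_sup (f := id) (sum_mem_st u h)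

theorem xz_cons (q a : ℕ) (S : Finset ℕ) (hS : ∀ x ∈ S, 1 ≤ x) :
    xz q (insert a (S.map (addLeftEmbedding a))) = (2 : ZMod q)⁻¹ ^ a * (1 + 3 * xz q S) := by
  have hn := notMem_map a S hS
  have h1 : rk (insert a (S.map (addLeftEmbedding a))) a = 0 := by
    rw [rk, card_eq_zero, filter_eq_empty_iff]
    intro y hy
    simp only [mem_insert, mem_map, addLeftEmbedding_apply] at hy
    rcases hy with rfl | ⟨z, _, rfl⟩ <;> omega
  have h2 : ∀ y ∈ S, rk (insert a (S.map (addLeftEmbedding a))) (a + y) = rk S y + 1 := by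
    intro y hy
    have hy1 := hS y hy
    have e : (insert a (S.map (addLeftEmbedding a))).filter (fun z => z < a + y) =
        insert a ((S.filter fun z => z < y).map (addLeftEmbedding a)) := by
      ext z
      simp only [mem_filter, mem_insert, mem_map, addLeftEmbedding_apply]
      constructor
      · rintro ⟨rfl | ⟨w, hw, rfl⟩, h⟩
        · exact Or.inl rfl
        · exact Or.inr ⟨w, ⟨hw, by omega⟩, rfl⟩
      · rintro (rfl | ⟨w, ⟨hw, hw'⟩, rfl⟩)
        · exact ⟨Or.inl rfl, by omega⟩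
        · exact ⟨Or.inr ⟨w, hw, rfl⟩, by omega⟩
    rw [rk, e, card_insert_of_notMem, card_map, rk]
    intro h
    simp only [mem_map, mem_filter, addLeftEmbedding_apply] at h
    obtain ⟨w, ⟨hw, _⟩, hw'⟩ := h
    have := hS w hw
    omega
  rw [xz, sum_insert hn, h1, sum_map, pow_zero, one_mul, mul_add, mul_one, xz, mul_sum, mul_sum]
  congr 1
  refine sum_congr rfl fun y hy => ?_
  rw [addLeftEmbedding_apply, h2 y hy, pow_add, pow_add]
  ring

theorem xz_st (q : ℕ) (h2 : (2 : ZMod q)⁻¹ * 2 = 1) : ∀ u : List ℕ, (∀ a ∈ u, 1 ≤ a) →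
    xz q (st u) * 2 ^ u.sum = cc u
  | [], _ => by simp [xz, st, cc]
  | a :: u, h => by
    have hu : ∀ b ∈ u, 1 ≤ b := fun b hb => h b (by simp [hb])
    have ih := xz_st q h2 u hu
    have e : (2 : ZMod q)⁻¹ ^ a * 2 ^ a = 1 := by rw [← mul_pow, h2, one_pow]
    rw [st, xz_cons q a _ (st_pos u hu), List.sum_cons, pow_add, cc]
    push_cast
    rw [← ih]
    calc (2 : ZMod q)⁻¹ ^ a * (1 + 3 * xz q (st u)) * (2 ^ a * 2 ^ u.sum)
        = ((2 : ZMod q)⁻¹ ^ a * 2 ^ a) * ((1 + 3 * xz q (st u)) * 2 ^ u.sum) := by ring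
      _ = 2 ^ u.sum + 3 * (xz q (st u) * 2 ^ u.sum) := by rw [e]; ring

theorem st_inj : ∀ u v : List ℕ, (∀ a ∈ u, 1 ≤ a) → (∀ a ∈ v, 1 ≤ a) → st u = st v → u = v
  | [], [], _, _, _ => rfl
  | [], b :: v, _, hv, h => by
    have := congrArg card h
    rw [st_card (b :: v) hv] at this
    simp [st] at this
  | a :: u, [], hu, _, h => by
    have := congrArg card h
    rw [st_card (a :: u) hu] at this
    simp [st] at this
  | a :: u, b :: v, hu, hv, h => by
    have hu' : ∀ c ∈ u, 1 ≤ c := fun c hc => hu c (by simp [hc])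
    have hv' : ∀ c ∈ v, 1 ≤ c := fun c hc => hv c (by simp [hc])
    have hab : a = b := by
      have h1 : a ∈ st (b :: v) := h ▸ (by simp [st])
      have h2 : b ∈ st (a :: u) := h ▸ (by simp [st])
      simp only [st, mem_insert, mem_map, addLeftEmbedding_apply] at h1 h2
      rcases h1 with h1 | ⟨y, _, h1⟩
      · exact h1
      · rcases h2 with h2 | ⟨z, _, h2⟩ <;> omega
    subst hab
    have h3 : (st u).map (addLeftEmbedding a) = (st v).map (addLeftEmbedding a) := by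
      have h4 := congrArg (fun S => S.erase a) h
      simp only [st] at h4
      rwa [erase_insert (notMem_map a _ (st_pos u hu')),
        erase_insert (notMem_map a _ (st_pos v hv'))] at h4
    rw [st_inj u v hu' hv' (map_injective _ h3)]

theorem st_surj : ∀ (m : ℕ) (S : Finset ℕ), S.card = m → (∀ x ∈ S, 1 ≤ x) →
    ∃ u : List ℕ, u.length = m ∧ (∀ a ∈ u, 1 ≤ a) ∧ st u = S
  | 0, S, h, _ => ⟨[], rfl, by simp, by rw [card_eq_zero.1 h]; rfl⟩
  | m + 1, S, h, hS => by
    have hne : S.Nonempty := card_pos.1 (by omega)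
    obtain ⟨a, ha⟩ : ∃ a, a = S.min' hne := ⟨_, rfl⟩
    have haS : a ∈ S := ha ▸ S.min'_mem hne
    have hlt : ∀ x ∈ S.erase a, a < x := by
      intro x hx
      have h1 : a ≤ x := ha ▸ S.min'_le x (mem_of_mem_erase hx)
      have h2 : x ≠ a := ne_of_mem_erase hx
      omega
    have hinj : Set.InjOn (fun x => x - a) (S.erase a : Finset ℕ) := by
      intro x hx y hy hxy
      have h1 := hlt x hx
      have h2 := hlt y hy
      simp only at hxy
      omega
    obtain ⟨u, h1, h2, h3⟩ := st_surj m ((S.erase a).image fun x => x - a)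
      (by rw [card_image_of_injOn hinj, card_erase_of_mem haS, h]; rfl)
      (by
        intro x hx
        obtain ⟨y, hy, rfl⟩ := mem_image.1 hx
        have := hlt y hy
        omega)
    refine ⟨a :: u, by simp [h1], ?_, ?_⟩
    · intro b hb
      rcases List.mem_cons.1 hb with rfl | hb
      · exact hS _ haS
      · exact h2 b hb
    · rw [st, h3]
      have e : ((S.erase a).image fun x => x - a).map (addLeftEmbedding a) = S.erase a := by
        ext z
        simp only [mem_map, mem_image, addLeftEmbedding_apply]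
        constructor
        · rintro ⟨w, ⟨y, hy, rfl⟩, rfl⟩
          have := hlt y hy
          rwa [Nat.add_sub_cancel' this.le]
        · intro hz
          exact ⟨z - a, ⟨z, hz, rfl⟩, Nat.add_sub_cancel' (hlt z hz).le⟩
      rw [e, insert_erase haS]

theorem mem_Fam (m c : ℕ) (S : Finset ℕ) :
    S ∈ Fam m c ↔ S.card = m ∧ (∀ x ∈ S, 1 ≤ x) ∧ S.sup id = c := by
  rw [Fam, mem_filter, mem_powersetCard]
  constructor
  · rintro ⟨⟨h1, h2⟩, h3⟩
    exact ⟨h2, fun x hx => (mem_Icc.1 (h1 hx)).1, h3⟩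
  · rintro ⟨h1, h2, h3⟩
    refine ⟨⟨fun x hx => mem_Icc.2 ⟨h2 x hx, ?_⟩, h1⟩, h3⟩
    rw [← h3]
    exact Finset.le_sup (f := id) hx

theorem xz_eq_iff (m : ℕ) (M : ℤ) (u : List ℕ) (hu : ∀ a ∈ u, 1 ≤ a) :
    xz (3 ^ m) (st u) = (M : ZMod (3 ^ m)) ↔ (3 : ℤ) ^ m ∣ 2 ^ u.sum * M - cc u := by
  have hco : Nat.Coprime 2 (3 ^ m) := Nat.Coprime.pow_right m (by norm_num)
  have h2 : (2 : ZMod (3 ^ m))⁻¹ * 2 = 1 := by
    have := ZMod.coe_mul_inv_eq_one 2 hco
    rw [mul_comm]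
    exact_mod_cast this
  have hx := xz_st (3 ^ m) h2 u hu
  have hun : IsUnit ((2 : ZMod (3 ^ m)) ^ u.sum) := by
    refine IsUnit.pow _ ?_
    exact IsUnit.of_mul_eq_one_right _ h2
  have e1 : ((3 : ℤ) ^ m ∣ 2 ^ u.sum * M - cc u) ↔
      ((2 ^ u.sum * M - cc u : ℤ) : ZMod (3 ^ m)) = 0 := by
    rw [ZMod.intCast_zmod_eq_zero_iff_dvd]
    push_cast
    exact Iff.rfl
  rw [e1]
  push_cast
  rw [← hx, sub_eq_zero]
  constructor
  · intro h
    rw [h]
    ring
  · intro h
    rw [mul_comm] at h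
    exact (hun.mul_left_injective h).symm

open Classical in
theorem card_eq (m c : ℕ) (M : ℤ) (W : Finset (List ℕ))
    (hW : ∀ u : List ℕ, u ∈ W ↔ (u.length = m ∧ (∀ a ∈ u, 1 ≤ a)) ∧
      (3 : ℤ) ^ m ∣ 2 ^ u.sum * M - cc u ∧ u.sum = c) :
    W.card = ((Fam m c).filter fun S => xz (3 ^ m) S = (M : ZMod (3 ^ m))).card := by
  refine card_bij (fun u _ => st u) ?_ ?_ ?_
  · intro u hu
    obtain ⟨⟨h1, h2⟩, h3, h4⟩ := (hW u).1 hu
    exact mem_filter.2 ⟨(mem_Fam m c _).2 ⟨(st_card u h2).trans h1, st_pos u h2,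
      (st_sup u).trans h4⟩, (xz_eq_iff m M u h2).2 h3⟩
  · intro u hu v hv h
    exact st_inj u v ((hW u).1 hu).1.2 ((hW v).1 hv).1.2 h
  · intro S hS
    obtain ⟨h1, h2⟩ := mem_filter.1 hS
    obtain ⟨h3, h4, h5⟩ := (mem_Fam m c S).1 h1
    obtain ⟨u, h6, h7, rfl⟩ := st_surj m S h3 h4
    exact ⟨u, (hW u).2 ⟨⟨h6, h7⟩, (xz_eq_iff m M u h7).1 h2, (st_sup u).symm.trans h5⟩, rfl⟩

theorem phiw (h1 : WordsStatement) : PhiWStatement := by
  classical
  intro m M
  obtain ⟨hw, -⟩ := h1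
  obtain ⟨W, hWd⟩ : ∃ W : Finset (List ℕ), W = (wds (4 * m) m).filter
      (fun u => u.sum ≤ 4 * m ∧ (3 : ℤ) ^ m ∣ 2 ^ u.sum * M - cc u) := ⟨_, rfl⟩
  have hmap : ∀ u ∈ W, u.sum ∈ range (4 * m + 1) := by
    intro u hu
    rw [hWd] at hu
    have := (mem_filter.1 hu).2.1
    exact mem_range.2 (by omega)
  rw [← hWd, ← sum_fiberwise_of_maps_to hmap, Phi, mul_sum]
  refine sum_congr rfl fun c hc => ?_
  have hc' : c ≤ 4 * m := by
    have := mem_range.1 hc
    omega
  have e1 : ∑ u ∈ W.filter (fun u => u.sum = c), (3 : ℝ) ^ m / 2 ^ u.sum =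
      ∑ _u ∈ W.filter (fun u => u.sum = c), (3 : ℝ) ^ m / 2 ^ c := by
    refine sum_congr rfl fun u hu => ?_
    rw [(mem_filter.1 hu).2]
  rw [e1, sum_const, nsmul_eq_mul, card_eq m c M (W.filter fun u => u.sum = c), f]
  · ring
  · intro u
    rw [mem_filter, hWd, mem_filter, hw]
    constructor
    · rintro ⟨⟨⟨h1, h2⟩, -, h3⟩, h4⟩
      exact ⟨⟨h1, fun a ha => (h2 a ha).1⟩, h3, h4⟩
    · rintro ⟨⟨h1, h2⟩, h3, h4⟩
      refine ⟨⟨⟨h1, fun a ha => ⟨h2 a ha, ?_⟩⟩, by omega, h3⟩, h4⟩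
      exact (List.single_le_sum (by simp) a ha).trans (h4.le.trans hc')

end Pool.Agent.Lib.MP_edb5be_nt.EX.H74
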